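import Pool.Agent.Lib.MP_05992d_an.Attain

namespace Pool.Agent.Results.MP_05992d_an.OmegaAttained

open Filter Topology Pool.Agent.Lib.MP_05992d_an
open scoped ENNReal

/-- For every JBW*-triple `M` with predual `X` and every bounded `A ⊆ X`, the De Blasi measure of
`A` is the greatest of the numbers whose supremum defines `γ(A)`. -/
theorem result {X : Type*} [NormedAddCommGroup X] [NormedSpace ℂ X] [CompleteSpace X]
    (T : StrongDual ℂ X → StrongDual ℂ X → StrongDual ℂ X → StrongDual ℂ X)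
    (hT : IsJBWStarTriple T) (A : Set X) (hA : Bornology.IsBounded A) :
    IsGreatest {g : ℝ≥0∞ | ∃ e : ℕ → StrongDual ℂ X, IsDecreasingTripotents T e ∧
      (∀ φ : X, Tendsto (fun n => e n φ) atTop (𝓝 0)) ∧
      limsup (fun n => ⨆ φ ∈ A, ‖e n φ‖ₑ) atTop = g} (deBlasi A) := by
  obtain ⟨S, rfl, hS⟩ := hT.exists_bundled
  have up : ∀ e : ℕ → StrongDual ℂ X, IsDecreasingTripotents (fun a b c => S a b c) e →
      (∀ φ : X, Tendsto (fun n => e n φ) atTop (𝓝 0)) →
      limsup (fun n => ⨆ φ ∈ A, ‖e n φ‖ₑ) atTop ≤ deBlasi A := fun e e1 e2 =>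
    le_trans (le_iSup_of_le e (le_iSup_of_le e1 (le_iSup_of_le e2 (by exact le_rfl))))
      (hS.gamma_le_deBlasi A)
  constructor
  · obtain ⟨e, e1, e2, e3⟩ := hS.exists_attain hA
    exact ⟨e, e1, e2, le_antisymm (up e e1 e2) (e3.trans liminf_le_limsup)⟩
  · rintro g ⟨e, e1, e2, rfl⟩
    exact up e e1 e2

end Pool.Agent.Results.MP_05992d_an.OmegaAttained
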